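import Mathlib

/-!
# The corner connection tile number is at most the traditional tile number

Space is modelled as `ℂ × ℝ`, the projection plane being `ℂ`.  Turning a traditional knot mosaic by
45 degrees and scaling it by the square root of two makes its edge midpoints the vertices of a square
lattice, and its tiles become every other tile of a corner connection mosaic.
-/

set_option autoImplicit false

namespace Pool.Agent.Results.MP_9b4fc7_gt.TileNumberInequality

open Complex

/-- The eleven tiles, described by what they do with their four connection points, which are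
numbered `0, 1, 2, 3` counterclockwise. -/
inductive Tile : Type
  /-- The blank tile. -/
  | blank : Tile
  /-- One arc, joining the connection points `k` and `k + 1` (modulo `4`). -/
  | arc (k : Fin 4) : Tile
  /-- One segment, joining the opposite connection points `k` and `k + 2`. -/
  | line (k : Fin 2) : Tile
  /-- Two disjoint arcs, one joining `k` and `k + 1`, the other `k + 2` and `k + 3` (modulo `4`). -/
  | double (k : Fin 2) : Tile
  /-- A crossing: the segment joining `k` and `k + 2` passes over the segment joining the other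
  two connection points. -/
  | cross (k : Fin 2) : Tile
  deriving DecidableEq

/-- Is `j` one of the connection points at which arcs of the tile end? -/
def Tile.used : Tile → Fin 4 → Bool
  | blank, _ => false
  | arc k, j => j = k ∨ j = k + 1
  | line k, j => (j : ℕ) % 2 = k
  | double _, _ => true
  | cross _, _ => true

/-- The connection points of a tile with centre `0`: the point `v` and the points obtained from
it by rotations by multiples of 90 degrees.  For `v = 1 / 2` these are the midpoints of the edges
(east, north, west, south) of a unit square, for `v = (1 + I) / 2` they are its corners (north-east,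
north-west, south-west, south-east). -/
noncomputable def port (v : ℂ) (k : ℕ) : ℂ := v * I ^ k

/-- The arc joining the neighbouring connection points `k` and `k + 1`: it consists of two
segments, meeting at a point inside the tile. -/
noncomputable def bend (v : ℂ) (k : ℕ) : Set (ℂ × ℝ) :=
  segment ℝ (port v k, 0) ((port v k + port v (k + 1)) / 4, 0) ∪
    segment ℝ ((port v k + port v (k + 1)) / 4, 0) (port v (k + 1), 0)

/-- The segment joining the opposite connection points `k` and `k + 2`. -/
noncomputable def flat (v : ℂ) (k : ℕ) : Set (ℂ × ℝ) := segment ℝ (port v k, 0) (port v (k + 2), 0)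

/-- The over-strand of a crossing, from the connection point `k` up to height `1` above the centre
of the tile and down again to the connection point `k + 2`. -/
noncomputable def bridge (v : ℂ) (k : ℕ) : Set (ℂ × ℝ) :=
  segment ℝ (port v k, 0) (0, 1) ∪ segment ℝ (0, 1) (port v (k + 2), 0)

/-- The arcs of a tile with centre `0`, as a subset of space. -/
noncomputable def Tile.arcs (v : ℂ) : Tile → Set (ℂ × ℝ)
  | blank => ∅
  | arc k => bend v k
  | line k => flat v k
  | double k => bend v k ∪ bend v (k + 2)
  | cross k => bridge v k ∪ flat v (k + 1)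

/-- An array of tiles. The tile `tile x y` occupies the unit square with centre
`(x + 1 / 2) + (y + 1 / 2) I`; outside of the array of `size` times `size` squares there is nothing
(this is expressed by blank tiles). -/
structure Mosaic where
  /-- The number of rows and of columns. -/
  size : ℕ
  /-- The tiles. -/
  tile : ℤ → ℤ → Tile
  /-- Non-blank tiles are in the array. -/
  inside : ∀ x y : ℤ, tile x y ≠ Tile.blank → 0 ≤ x ∧ x < size ∧ 0 ≤ y ∧ y < size

namespace Mosaic

/-- The number of non-blank tiles. -/
noncomputable def tiles (M : Mosaic) : ℕ := {p : ℤ × ℤ | M.tile p.1 p.2 ≠ Tile.blank}.ncard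

/-- The arcs of all tiles, as a subset of space; `v` is the first connection point of a tile with
centre `0`. -/
noncomputable def link (v : ℂ) (M : Mosaic) : Set (ℂ × ℝ) :=
  ⋃ (x : ℤ) (y : ℤ), (fun p : ℂ × ℝ => ((x + 1 / 2) + (y + 1 / 2) * I + p.1, p.2)) ''
    (M.tile x y).arcs v

/-- Knot mosaics for the traditional tiles (connection points `0, 1, 2, 3` are the midpoints of the
east, north, west and south edge): a connection point on an edge is met by a connection point of the
tile across that edge. -/
def EdgeConnected (M : Mosaic) : Prop :=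
  ∀ x y : ℤ, (M.tile x y).used 0 = (M.tile (x + 1) y).used 2 ∧
    (M.tile x y).used 1 = (M.tile x (y + 1)).used 3

/-- The number of arc ends at the grid point `x + y I`, if the connection points `0, 1, 2, 3` of a
tile are its north-east, north-west, south-west and south-east corner. -/
def ends (M : Mosaic) (x y : ℤ) : ℕ :=
  ((M.tile x y).used 2).toNat + ((M.tile (x - 1) y).used 3).toNat +
    ((M.tile (x - 1) (y - 1)).used 0).toNat + ((M.tile x (y - 1)).used 1).toNat

/-- Knot mosaics for the corner connection tiles: at every grid point, `0` or `2` arc ends meet. -/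
def CornerConnected (M : Mosaic) : Prop := ∀ x y : ℤ, M.ends x y = 0 ∨ M.ends x y = 2

end Mosaic

/-- Two subsets of space are ambient isotopic. -/
def AmbientIsotopic (A B : Set (ℂ × ℝ)) : Prop :=
  ∃ F : unitInterval → (ℂ × ℝ) ≃ₜ (ℂ × ℝ),
    Continuous (fun p : unitInterval × (ℂ × ℝ) => F p.1 p.2) ∧ (∀ p, F 0 p = p) ∧ F 1 '' A = B

/-- The tile number: the least number of non-blank tiles in a knot mosaic made of traditional tiles
which depicts `K` (and `⊤` if there is no such mosaic). -/
noncomputable def tileNumber (K : Set (ℂ × ℝ)) : ℕ∞ :=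
  ⨅ M ∈ {M : Mosaic | M.EdgeConnected ∧ AmbientIsotopic (M.link (1 / 2)) K}, (M.tiles : ℕ∞)

/-- The corner connection tile number: the least number of non-blank tiles in a knot mosaic made of
corner connection tiles which depicts `K` (and `⊤` if there is no such mosaic). -/
noncomputable def cornerTileNumber (K : Set (ℂ × ℝ)) : ℕ∞ :=
  ⨅ M ∈ {M : Mosaic | M.CornerConnected ∧ AmbientIsotopic (M.link ((1 + I) / 2)) K}, (M.tiles : ℕ∞)

/-! ### Rotating a mosaic -/

/-- The rotated and scaled mosaic. -/
def turn (M : Mosaic) : Mosaic where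
  size := 2 * M.size
  tile p q := if (p + q - 1 - M.size) % 2 = 0 then
      M.tile ((p + q - 1 - M.size) / 2) ((q - p - 1 + M.size) / 2) else Tile.blank
  inside p q h := by
    split at h
    · have := M.inside _ _ h
      push_cast
      omega
    · exact absurd rfl h

theorem turn_even (M : Mosaic) (x y : ℤ) :
    (turn M).tile (x - y + M.size) (x + y + 1) = M.tile x y := by
  have h1 : (x - y + M.size) + (x + y + 1) - 1 - (M.size : ℤ) = 2 * x := by ring
  have h2 : (x + y + 1) - (x - y + M.size) - 1 + (M.size : ℤ) = 2 * y := by ring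
  simp only [turn, h1, h2]
  simp

theorem turn_odd (M : Mosaic) (p q : ℤ) (h : (p + q - 1 - M.size) % 2 ≠ 0) :
    (turn M).tile p q = Tile.blank := if_neg h

theorem tiles_turn (M : Mosaic) : (turn M).tiles = M.tiles := by
  unfold Mosaic.tiles
  have : {p : ℤ × ℤ | (turn M).tile p.1 p.2 ≠ Tile.blank} =
      (fun p : ℤ × ℤ => (p.1 - p.2 + M.size, p.1 + p.2 + 1)) ''
        {p : ℤ × ℤ | M.tile p.1 p.2 ≠ Tile.blank} := by
    ext ⟨p, q⟩
    simp only [Set.mem_ofPred_eq, Set.mem_image, Prod.mk.injEq, Prod.exists]
    constructor
    · intro h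
      by_cases hp : (p + q - 1 - M.size) % 2 = 0
      · refine ⟨(p + q - 1 - M.size) / 2, (q - p - 1 + M.size) / 2, ?_, by omega, by omega⟩
        have := turn_even M ((p + q - 1 - M.size) / 2) ((q - p - 1 + M.size) / 2)
        rw [show (p + q - 1 - M.size) / 2 - (q - p - 1 + M.size) / 2 + (M.size : ℤ) = p by omega,
          show (p + q - 1 - M.size) / 2 + (q - p - 1 + M.size) / 2 + 1 = q by omega] at this
        rwa [← this]
      · exact absurd (turn_odd M p q hp) h
    · rintro ⟨x, y, h, rfl, rfl⟩
      rwa [turn_even]
  rw [this]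
  apply Set.ncard_image_of_injective
  rintro ⟨a, b⟩ ⟨c, d⟩ h
  simp only [Prod.mk.injEq] at h ⊢
  omega

theorem cornerConnected_turn (M : Mosaic) (h : M.EdgeConnected) : (turn M).CornerConnected := by
  intro P Q
  unfold Mosaic.ends
  by_cases hp : (P + Q - 1 - M.size) % 2 = 0
  · -- the tiles `(P, Q)` and `(P - 1, Q - 1)`
    obtain ⟨x, y, rfl, rfl⟩ : ∃ x y : ℤ, P = x - y + M.size ∧ Q = x + y + 1 :=
      ⟨(P + Q - 1 - M.size) / 2, (Q - P - 1 + M.size) / 2, by omega, by omega⟩
    rw [turn_odd M (x - y + M.size - 1) (x + y + 1) (by omega),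
      turn_odd M (x - y + M.size) (x + y + 1 - 1) (by omega), turn_even]
    have := turn_even M (x - 1) y
    rw [show x - 1 - y + (M.size : ℤ) = x - y + M.size - 1 by ring,
      show x - 1 + y + 1 = x + y + 1 - 1 by ring] at this
    rw [this]
    have h1 := (h (x - 1) y).1
    rw [show x - 1 + 1 = x by ring] at h1
    rw [h1]
    cases (M.tile x y).used 2 <;> simp [Tile.used]
  · -- the tiles `(P - 1, Q)` and `(P, Q - 1)`
    obtain ⟨x, y, hx, hy⟩ : ∃ x y : ℤ, P - 1 = x - y + M.size ∧ Q = x + y + 1 :=
      ⟨(P - 1 + Q - 1 - M.size) / 2, (Q - (P - 1) - 1 + M.size) / 2, by omega, by omega⟩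
    obtain rfl : P = x - y + M.size + 1 := by omega
    subst hy
    rw [turn_odd M (x - y + M.size + 1) (x + y + 1) (by omega),
      turn_odd M (x - y + M.size + 1 - 1) (x + y + 1 - 1) (by omega),
      show x - y + (M.size : ℤ) + 1 - 1 = x - y + M.size by ring, turn_even]
    have := turn_even M x (y - 1)
    rw [show x - (y - 1) + (M.size : ℤ) = x - y + M.size + 1 by ring,
      show x + (y - 1) + 1 = x + y + 1 - 1 by ring] at this
    rw [this]
    have h1 := (h x (y - 1)).2
    rw [show y - 1 + 1 = y by ring] at h1
    rw [h1]
    cases (M.tile x y).used 3 <;> simp [Tile.used]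

/-! ### Rotating the arcs -/

/-- Multiplication by `1 + I` in the projection plane. -/
noncomputable def rot : (ℂ × ℝ) →ₗ[ℝ] (ℂ × ℝ) :=
  LinearMap.prodMap (LinearMap.mulLeft ℝ (1 + I)) LinearMap.id

theorem rot_apply (p : ℂ × ℝ) : rot p = ((1 + I) * p.1, p.2) := rfl

theorem rot_segment (a b : ℂ × ℝ) : rot '' segment ℝ a b = segment ℝ (rot a) (rot b) :=
  image_segment ℝ rot.toAffineMap a b

theorem rot_port (k : ℕ) : (1 + I) * port (1 / 2) k = port ((1 + I) / 2) k := by
  unfold port; ring

theorem rot_bend (k : ℕ) : rot '' bend (1 / 2) k = bend ((1 + I) / 2) k := by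
  unfold bend
  rw [Set.image_union, rot_segment, rot_segment]
  simp only [rot_apply, rot_port]
  have : (1 + I) * ((port (1 / 2) k + port (1 / 2) (k + 1)) / 4) =
      (port ((1 + I) / 2) k + port ((1 + I) / 2) (k + 1)) / 4 := by
    rw [← rot_port, ← rot_port]; ring
  rw [this]

theorem rot_flat (k : ℕ) : rot '' flat (1 / 2) k = flat ((1 + I) / 2) k := by
  unfold flat
  rw [rot_segment]
  simp only [rot_apply, rot_port]

theorem rot_bridge (k : ℕ) : rot '' bridge (1 / 2) k = bridge ((1 + I) / 2) k := by
  unfold bridge
  rw [Set.image_union, rot_segment, rot_segment]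
  simp only [rot_apply, rot_port, mul_zero]

theorem rot_arcs (T : Tile) : rot '' T.arcs (1 / 2) = T.arcs ((1 + I) / 2) := by
  cases T with
  | blank => simp [Tile.arcs]
  | arc k => exact rot_bend k
  | line k => exact rot_flat k
  | double k =>
    simp only [Tile.arcs]
    rw [Set.image_union, rot_bend, rot_bend]
  | cross k =>
    simp only [Tile.arcs]
    rw [Set.image_union, rot_bridge, rot_flat]

/-- The similarity at time `t`; `s` is the final translation. -/
noncomputable def move (s : ℂ) (t : unitInterval) : (ℂ × ℝ) ≃ₜ (ℂ × ℝ) where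
  toFun p := ((1 + (t : ℝ) * I) * p.1 + (t : ℝ) * s, p.2)
  invFun p := ((p.1 - (t : ℝ) * s) / (1 + (t : ℝ) * I), p.2)
  left_inv p := by
    have h : (1 + ((t : ℝ) : ℂ) * I) ≠ 0 := by
      intro h
      have := congrArg Complex.re h
      simp at this
    ext1
    · simp only
      field_simp
      ring
    · rfl
  right_inv p := by
    have h : (1 + ((t : ℝ) : ℂ) * I) ≠ 0 := by
      intro h
      have := congrArg Complex.re h
      simp at this
    ext1
    · simp only
      field_simp
      ring
    · rfl
  continuous_toFun := by fun_prop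
  continuous_invFun := by
    have h : (1 + ((t : ℝ) : ℂ) * I) ≠ 0 := by
      intro h
      have := congrArg Complex.re h
      simp at this
    fun_prop (disch := exact h)

theorem link_turn (M : Mosaic) : (turn M).link ((1 + I) / 2) =
    move (M.size + 1 / 2 + 1 / 2 * I) 1 '' M.link (1 / 2) := by
  have key : ∀ x y : ℤ, (fun p : ℂ × ℝ => ((((x - y + M.size : ℤ) : ℂ) + 1 / 2) +
      (((x + y + 1 : ℤ) : ℂ) + 1 / 2) * I + p.1, p.2)) '' (M.tile x y).arcs ((1 + I) / 2) =
      move (M.size + 1 / 2 + 1 / 2 * I) 1 ''
        ((fun p : ℂ × ℝ => ((x + 1 / 2) + (y + 1 / 2) * I + p.1, p.2)) ''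
          (M.tile x y).arcs (1 / 2)) := by
    intro x y
    rw [← rot_arcs, Set.image_image, Set.image_image]
    apply Set.image_congr
    intro p _
    simp only [rot_apply, move, Homeomorph.homeomorph_mk_coe, Equiv.coe_fn_mk, Prod.mk.injEq,
      and_true]
    push_cast
    have hI : I * I = -1 := I_mul_I
    linear_combination (-(y + 1 / 2) : ℂ) * hI
  unfold Mosaic.link
  ext p
  simp only [Set.mem_iUnion, Set.image_iUnion]
  constructor
  · rintro ⟨P, Q, h⟩
    by_cases hp : (P + Q - 1 - M.size) % 2 = 0
    · obtain ⟨x, y, rfl, rfl⟩ : ∃ x y : ℤ, P = x - y + M.size ∧ Q = x + y + 1 :=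
        ⟨(P + Q - 1 - M.size) / 2, (Q - P - 1 + M.size) / 2, by omega, by omega⟩
      refine ⟨x, y, ?_⟩
      rw [turn_even, key x y] at h
      exact h
    · rw [turn_odd M P Q hp] at h
      simp [Tile.arcs] at h
  · rintro ⟨x, y, h⟩
    refine ⟨x - y + M.size, x + y + 1, ?_⟩
    rw [turn_even, key x y]
    exact h

theorem isotopic_turn (M : Mosaic) (K : Set (ℂ × ℝ)) (h : AmbientIsotopic (M.link (1 / 2)) K) :
    AmbientIsotopic ((turn M).link ((1 + I) / 2)) K := by
  obtain ⟨F, hF, h0, h1⟩ := h
  refine ⟨fun t => (move (M.size + 1 / 2 + 1 / 2 * I) t).symm.trans (F t), ?_, ?_, ?_⟩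
  · have hc : Continuous (fun p : unitInterval × (ℂ × ℝ) =>
        (p.1, (move (M.size + 1 / 2 + 1 / 2 * I) p.1).symm p.2)) := by
      have : ∀ t : unitInterval, (1 + ((t : ℝ) : ℂ) * I) ≠ 0 := by
        intro t h
        have := congrArg Complex.re h
        simp at this
      refine continuous_fst.prodMk (Continuous.prodMk ?_ (by fun_prop))
      refine Continuous.div (by fun_prop) (by fun_prop) fun p => this p.1
    exact hF.comp hc
  · intro p
    have : (move (M.size + 1 / 2 + 1 / 2 * I) 0).symm p = p := by
      rw [Homeomorph.symm_apply_eq]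
      simp [move]
    simp only [Homeomorph.trans_apply, this]
    exact h0 p
  · rw [link_turn, Set.image_image]
    have : (fun x => ((move (M.size + 1 / 2 + 1 / 2 * I) 1).symm.trans (F 1))
        (move (M.size + 1 / 2 + 1 / 2 * I) 1 x)) = F 1 := by
      funext x
      simp
    rw [this]
    exact h1

/-- **The corner connection tile number is at most the traditional tile number**, for every subset
`K` of space, in particular for every knot and for every link. -/
theorem result (K : Set (ℂ × ℝ)) : cornerTileNumber K ≤ tileNumber K := by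
  unfold cornerTileNumber tileNumber
  refine le_iInf₂ fun M hM => ?_
  refine (iInf₂_le (turn M) ⟨cornerConnected_turn M hM.1, isotopic_turn M K hM.2⟩).trans ?_
  rw [tiles_turn]

end Pool.Agent.Results.MP_9b4fc7_gt.TileNumberInequality
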